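import Pool.Agent.R756.KT.Tree

/-!
# Graphs covered by tree tensor networks: general forms (helper694)

The theorems of the starting file `MP_f4a4e4_co/TensorNetworks` for graphs in which any `s` vertices
and any `t` vertices contain a pair of different nonadjacent vertices.
-/

set_option autoImplicit false

namespace Run7.h694.TN

open Finset Filter Topology Pool.Agent.R756.TN Pool.Agent.R756.KT

section defs

variable {α : Type} {k : ℕ}

/-- `F` is the support of a function of pairs of strings of length `k` which is computed by a tree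
tensor network `D` over a field `K`, with messages in `K ^ W`, bond dimension `card W ≤ w`, which reads
every coordinate of the two strings at most once. -/
def TreePiece (w : ℕ) (F : Set ((Fin k → α) × (Fin k → α))) : Prop :=
  ∃ (K : Type) (_ : Field K) (W : Type) (_ : Fintype W) (D : Net K (Fin k ⊕ Fin k) α W)
    (φ : (W → K) →ₗ[K] K), Fintype.card W ≤ w ∧ D.ReadOnce ∧
    F = {p | φ (D.eval (Sum.elim p.1 p.2)) ≠ 0}

/-- The edges of `G` are covered by `L` tree pieces of bond dimension at most `w`; the pairs of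
different strings in the pieces are edges, and every edge occurs in some piece in some order. -/
def CoveredBy (L w : ℕ) (G : SimpleGraph (Fin k → α)) : Prop :=
  ∃ F : Fin L → Set ((Fin k → α) × (Fin k → α)), (∀ j, TreePiece w (F j)) ∧
    (∀ j x y, (x, y) ∈ F j → x ≠ y → G.Adj x y) ∧
    ∀ x y, G.Adj x y → ∃ j, (x, y) ∈ F j ∨ (y, x) ∈ F j

/-- among any `s` and any `t` vertices there are different ones which are not adjacent -/
def NoRect {V : Type} (s t : ℕ) (G : SimpleGraph V) : Prop :=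
  ∀ R T : Finset V, s ≤ R.card → t ≤ T.card → ∃ x ∈ R, ∃ y ∈ T, x ≠ y ∧ ¬ G.Adj x y

end defs

/-- the constants -/
lemma consts {s t a f w : ℕ} (hs : s ≤ a + 1) (ht : t ≤ a + 1) (ha : 1 ≤ a) (hsf : s ≤ f + 1)
    (htf : t ≤ f + 1) (hf : 1 ≤ f) (hw : 1 ≤ w) :
    (s - 1) * w ≤ a * w ^ f ∧ (t - 1) * w ≤ a * w ^ f ∧
    (t - 1) * w ^ (s - 1) ≤ a * w ^ f ∧ (s - 1) * w ^ (t - 1) ≤ a * w ^ f ∧ w ≤ a * w ^ f ∧
    1 ≤ a * w ^ f := by
  have h1 : w ^ 1 ≤ w ^ f := Nat.pow_le_pow_right hw (by omega)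
  have h2 : w ^ (s - 1) ≤ w ^ f := Nat.pow_le_pow_right hw (by omega)
  have h3 : w ^ (t - 1) ≤ w ^ f := Nat.pow_le_pow_right hw (by omega)
  have h4 : 1 ≤ w ^ f := Nat.one_le_pow _ _ hw
  rw [pow_one] at h1
  refine ⟨Nat.mul_le_mul (by omega) h1, Nat.mul_le_mul (by omega) h1,
    Nat.mul_le_mul (by omega) h2, Nat.mul_le_mul (by omega) h3, ?_, ?_⟩
  · calc w = 1 * w := (one_mul w).symm
      _ ≤ _ := Nat.mul_le_mul (by omega) h1
  · calc 1 = 1 * 1 := rfl
      _ ≤ _ := Nat.mul_le_mul (by omega) h4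

lemma piece_bound {α : Type} [Fintype α] {k s t a f w J : ℕ} (hs1 : 1 ≤ s) (ht1 : 1 ≤ t)
    (hs : s ≤ a + 1) (ht : t ≤ a + 1) (ha : 1 ≤ a) (hsf : s ≤ f + 1) (htf : t ≤ f + 1)
    (hf : 1 ≤ f) (hw : 1 ≤ w)
    (G : SimpleGraph (Fin k → α)) (hG : NoRect s t G) (F : Set ((Fin k → α) × (Fin k → α)))
    (hF : TreePiece w F) (hFG : ∀ x y, (x, y) ∈ F → x ≠ y → G.Adj x y)
    (hJ : 2 * k * 2 ^ J ≤ 3 ^ J) :
    F.ncard ≤ (4 * a ^ 2 * w ^ (2 * f)) ^ J * Fintype.card α ^ k := by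
  classical
  obtain ⟨K, _, W, _, D, φ, hW, hD, rfl⟩ := hF
  rcases Set.eq_empty_or_nonempty
    {p : (Fin k → α) × (Fin k → α) | φ (D.eval (Sum.elim p.1 p.2)) ≠ 0} with he | ⟨p0, hp0⟩
  · rw [he, Set.ncard_empty]
    exact Nat.zero_le _
  let X : Finset (Fin k ⊕ Fin k) := univ.filter fun i => i.isLeft
  have hXl : ∀ i : Fin k, (Sum.inl i : Fin k ⊕ Fin k) ∈ X := fun i => by simp [X]
  have hXr : ∀ i : Fin k, (Sum.inr i : Fin k ⊕ Fin k) ∉ X := fun i => by simp [X]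
  have hpw : ∀ x y : Fin k ⊕ Fin k → α, X.piecewise x y = Sum.elim (x ∘ Sum.inl) (y ∘ Sum.inr) := by
    intro x y
    funext i
    rcases i with i | i
    · simp [hXl i]
    · simp [hXr i]
  obtain ⟨c1, c2, c3, c4, c5, c6⟩ := consts (w := w) hs ht ha hsf htf hf hw
  have hfree : Free s t X (fun z => φ (D.eval z)) := by
    intro R T hR hT hRi hTi
    obtain ⟨x0, hx0, y0, hy0, hxy, hnadj⟩ := hG (R.image fun x => x ∘ Sum.inl)
      (T.image fun y => y ∘ Sum.inr) (by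
        rw [card_image_of_injOn]
        · exact hR
        · intro x hx x' hx' e
          refine hRi x hx x' hx' fun i hi => ?_
          rcases i with i | i
          · exact congrFun e i
          · exact absurd hi (hXr i)) (by
        rw [card_image_of_injOn]
        · exact hT
        · intro x hx x' hx' e
          refine hTi x hx x' hx' fun i hi => ?_
          rcases i with i | i
          · exact absurd (hXl i) hi
          · exact congrFun e i)
    obtain ⟨x, hx, rfl⟩ := mem_image.1 hx0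
    obtain ⟨y, hy, rfl⟩ := mem_image.1 hy0
    refine ⟨x, hx, y, hy, ?_⟩
    by_contra hne
    refine hnadj (hFG _ _ ?_ hxy)
    rw [Set.mem_ofPred_eq, ← hpw]
    exact hne
  have hmain := main (c := a * w ^ f) hs1 ht1 c1 c2 c3 c4 c5 c6 X
    (fun z => φ (D.eval z)) hfree (fun V hV => exists_cut D hD φ hW hw V hV) J univ
    (Sum.elim p0.1 p0.2) (by
      rw [card_univ, Fintype.card_sum, Fintype.card_fin]
      calc (k + k) * 2 ^ J = 2 * k * 2 ^ J := by ring
        _ ≤ 3 ^ J := hJ)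
  have hX1 : (univ ∩ X).card = k := by
    rw [univ_inter]
    have : X = univ.map ⟨Sum.inl, Sum.inl_injective⟩ := by
      ext i
      rcases i with i | i <;> simp [X]
    rw [this, card_map, card_univ, Fintype.card_fin]
  have hX2 : (univ \ X).card = k := by
    have : univ \ X = univ.map ⟨Sum.inr, Sum.inr_injective⟩ := by
      ext i
      rcases i with i | i <;> simp [X]
    rw [this, card_map, card_univ, Fintype.card_fin]
  rw [hX1, hX2, max_self] at hmain
  have hconst : 4 * (a * w ^ f) ^ 2 = 4 * a ^ 2 * w ^ (2 * f) := by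
    have : w ^ (2 * f) = (w ^ f) ^ 2 := by
      rw [← pow_mul]
      congr 1
      ring
    rw [this]
    ring
  rw [hconst] at hmain
  refine le_trans ?_ hmain
  rw [← Set.ncard_coe_finset]
  refine Set.ncard_le_ncard_of_injOn (fun p => Sum.elim p.1 p.2) ?_ ?_ (Finset.finite_toSet _)
  · intro p hp
    rw [mem_coe, mem_filter, mem_Sl]
    exact ⟨fun i hi => absurd (mem_univ i) hi, hp⟩
  · intro p _ q _ hpq
    refine Prod.ext ?_ ?_
    · funext i
      exact congrFun hpq (Sum.inl i)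
    · funext i
      exact congrFun hpq (Sum.inr i)

/-- **Graphs covered by tree pieces.** -/
theorem bound {α : Type} [Fintype α] {k s t a f w L J : ℕ} (hs1 : 1 ≤ s) (ht1 : 1 ≤ t)
    (hs : s ≤ a + 1) (ht : t ≤ a + 1) (ha : 1 ≤ a) (hsf : s ≤ f + 1) (htf : t ≤ f + 1)
    (hf : 1 ≤ f) (hw : 1 ≤ w)
    (G : SimpleGraph (Fin k → α)) (hG : NoRect s t G) (hc : CoveredBy L w G)
    (hJ : 2 * k * 2 ^ J ≤ 3 ^ J) :
    G.edgeSet.ncard ≤ L * ((4 * a ^ 2 * w ^ (2 * f)) ^ J * Fintype.card α ^ k) := by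
  classical
  obtain ⟨F, h1, h2, h3⟩ := hc
  have hfin : ∀ s : Set ((Fin k → α) × (Fin k → α)), s.Finite := fun s => Set.toFinite s
  have hsub : G.edgeSet ⊆ ⋃ j ∈ (univ : Finset (Fin L)), (fun p => s(p.1, p.2)) '' F j := by
    intro e he
    induction e using Sym2.ind with
    | _ x y =>
      rw [SimpleGraph.mem_edgeSet] at he
      obtain ⟨j, hj | hj⟩ := h3 x y he
      · rw [Set.mem_iUnion₂]
        exact ⟨j, mem_univ _, (x, y), hj, rfl⟩
      · rw [Set.mem_iUnion₂]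
        exact ⟨j, mem_univ _, (y, x), hj, Sym2.eq_swap⟩
  have h4 : G.edgeSet.ncard ≤
      (⋃ j ∈ (univ : Finset (Fin L)), (fun p => s(p.1, p.2)) '' F j).ncard :=
    Set.ncard_le_ncard hsub (Set.toFinite _)
  refine h4.trans ?_
  refine (Finset.set_ncard_biUnion_le _ _).trans ?_
  calc ∑ j : Fin L, ((fun p => s(p.1, p.2)) '' F j).ncard
      ≤ ∑ _j : Fin L, ((4 * a ^ 2 * w ^ (2 * f)) ^ J * Fintype.card α ^ k) := by
        refine sum_le_sum fun j _ => ?_
        exact (Set.ncard_image_le (hfin _)).trans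
          (piece_bound hs1 ht1 hs ht ha hsf htf hf hw G hG (F j) (h1 j) (h2 j) hJ)
    _ = _ := by rw [sum_const, card_univ, Fintype.card_fin, smul_eq_mul]

lemma TreePiece.mono {α : Type} {k w w' : ℕ} {F : Set ((Fin k → α) × (Fin k → α))}
    (h : TreePiece w F) (hw : w ≤ w') : TreePiece w' F := by
  obtain ⟨K, i1, W, i2, D, φ, h1, h2, h3⟩ := h
  exact ⟨K, i1, W, i2, D, φ, h1.trans hw, h2, h3⟩

lemma CoveredBy.mono {α : Type} {k w w' L : ℕ} {G : SimpleGraph (Fin k → α)}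
    (h : CoveredBy L w G) (hw : w ≤ w') : CoveredBy L w' G := by
  obtain ⟨F, h1, h2, h3⟩ := h
  exact ⟨F, fun j => (h1 j).mono hw, h2, h3⟩

/-- from the bound to the number of pieces -/
lemma pieces {n c ε P L E β : ℝ} (hn : 0 < n) (hc : 0 < c) (hL : 0 ≤ L)
    (hE : c * n ^ (1 + β) ≤ E) (hb : E ≤ L * (P * n)) (hP : P ≤ c * n ^ ε) :
    n ^ (β - ε) ≤ L := by
  have h1 : c * n ^ (1 + β) ≤ L * (c * n ^ ε * n) := by
    refine hE.trans (hb.trans ?_)
    gcongr
  have h2 : n ^ (1 + β) = n ^ (β - ε) * (n ^ ε * n) := by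
    have : (1 + β : ℝ) = (β - ε) + (ε + 1) := by ring
    rw [this, Real.rpow_add hn, Real.rpow_add hn, Real.rpow_one]
  rw [h2] at h1
  have h3 : 0 < c * (n ^ ε * n) := by positivity
  refine le_of_mul_le_mul_right ?_ h3
  calc n ^ (β - ε) * (c * (n ^ ε * n)) = c * (n ^ (β - ε) * (n ^ ε * n)) := by ring
    _ ≤ L * (c * n ^ ε * n) := h1
    _ = L * (c * (n ^ ε * n)) := by ring

lemma J_ok (m : ℕ) : 2 * m * 2 ^ (2 * Nat.clog 2 (2 * m)) ≤ 3 ^ (2 * Nat.clog 2 (2 * m)) := by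
  have h1 : 2 * m ≤ 2 ^ Nat.clog 2 (2 * m) := Nat.le_pow_clog (by norm_num) _
  set C := Nat.clog 2 (2 * m)
  calc 2 * m * 2 ^ (2 * C) ≤ 2 ^ C * 2 ^ (2 * C) := Nat.mul_le_mul_right _ h1
    _ = 8 ^ C := by
        rw [← pow_add, show C + 2 * C = 3 * C by ring, pow_mul]
        norm_num
    _ ≤ 9 ^ C := Nat.pow_le_pow_left (by norm_num) _
    _ = 3 ^ (2 * C) := by
        rw [pow_mul]
        norm_num

lemma J_le {m : ℕ} (hm : 2 ≤ Real.log m) (hm1 : 1 ≤ m) :
    ((2 * Nat.clog 2 (2 * m) : ℕ) : ℝ) ≤ 8 * Real.log m := by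
  have h1 : 2 ^ (Nat.clog 2 (2 * m)).pred < 2 * m :=
    Nat.pow_pred_clog_lt_self (by norm_num) (by omega)
  set C := Nat.clog 2 (2 * m)
  have h2 : ((2 : ℝ) ^ C.pred) < 2 * m := by exact_mod_cast h1
  have hm0 : (0 : ℝ) < m := by exact_mod_cast hm1
  have h3 : (C.pred : ℝ) * Real.log 2 < Real.log 2 + Real.log m := by
    rw [← Real.log_mul (by norm_num) hm0.ne', ← Real.log_pow]
    exact Real.log_lt_log (by positivity) h2
  have h4 : (C : ℝ) ≤ C.pred + 1 := by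
    have : C ≤ C.pred + 1 := by
      rw [Nat.pred_eq_sub_one]
      omega
    exact_mod_cast this
  have h5 := Real.log_two_gt_d9
  have h6 : (C.pred : ℝ) ≤ 1 + 2 * Real.log m := by
    by_contra hno
    push Not at hno
    nlinarith
  push_cast
  nlinarith

/-- bit strings -/
theorem bits (s t a f : ℕ) (hs1 : 1 ≤ s) (ht1 : 1 ≤ t)
    (hs : s ≤ a + 1) (ht : t ≤ a + 1) (ha : 1 ≤ a) (hsf : s ≤ f + 1) (htf : t ≤ f + 1)
    (hf : 1 ≤ f) (β c ε : ℝ) (hc : 0 < c) (hε : 0 < ε) :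
    ∃ δ : ℝ, 0 < δ ∧ ∀ᶠ m : ℕ in atTop, ∀ (w L : ℕ) (G : SimpleGraph (Fin m → Bool)),
      NoRect s t G → CoveredBy L w G →
      c * ((2 : ℝ) ^ m) ^ (1 + β) ≤ G.edgeSet.ncard →
      (w : ℝ) ≤ (2 : ℝ) ^ (δ * m / Real.log m) →
      ((2 : ℝ) ^ m) ^ (β - ε) ≤ L := by
  have hr0 : (0 : ℝ) < f := by exact_mod_cast hf
  have hl2 : 0 < Real.log 2 := Real.log_pos (by norm_num)
  have hA1 : (1 : ℝ) ≤ 4 * (a : ℝ) ^ 2 := by
    have : (1 : ℝ) ≤ a := by exact_mod_cast ha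
    nlinarith
  have hlA : 0 ≤ Real.log (4 * (a : ℝ) ^ 2) := Real.log_nonneg hA1
  refine ⟨ε / (32 * f), by positivity, ?_⟩
  have t1 : ∀ᶠ m : ℕ in atTop, 2 ≤ Real.log m :=
    (Real.tendsto_log_atTop.comp tendsto_natCast_atTop_atTop).eventually_ge_atTop 2
  have t2 : ∀ᶠ m : ℕ in atTop, Real.log m ≤
      ε * Real.log 2 / (4 * (8 * Real.log (4 * (a : ℝ) ^ 2) + 1)) * m := by
    have h1 := Real.isLittleO_log_id_atTop.comp_tendsto tendsto_natCast_atTop_atTop
    have h2 := h1.def (c := ε * Real.log 2 / (4 * (8 * Real.log (4 * (a : ℝ) ^ 2) + 1)))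
      (by positivity)
    filter_upwards [h2] with m hm
    simp only [Function.comp_apply, id_eq, Real.norm_eq_abs, Nat.abs_cast] at hm
    exact (le_abs_self _).trans hm
  have t3 : ∀ᶠ m : ℕ in atTop, - Real.log c / (ε * Real.log 2 / 4) ≤ (m : ℝ) :=
    tendsto_natCast_atTop_atTop.eventually_ge_atTop _
  filter_upwards [t1, t2, t3, eventually_ge_atTop 1] with m h1 h2 h3 hm1
  intro w L G hG hcov hE hw
  have hm0 : (0 : ℝ) < m := by exact_mod_cast hm1
  obtain ⟨v, hv⟩ : ∃ v : ℕ, v = max w 1 := ⟨_, rfl⟩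
  have hv1 : 1 ≤ v := by
    rw [hv]
    exact le_max_right _ _
  have hcov' : CoveredBy L v G := hcov.mono (by rw [hv]; exact le_max_left _ _)
  have hvle : (v : ℝ) ≤ (2 : ℝ) ^ (ε / (32 * f) * m / Real.log m) := by
    rw [hv, Nat.cast_max]
    refine max_le hw ?_
    rw [Nat.cast_one]
    exact Real.one_le_rpow (by norm_num) (by positivity)
  have hb := bound (J := 2 * Nat.clog 2 (2 * m)) hs1 ht1 hs ht ha hsf htf hf hv1 G hG hcov' (J_ok m)
  have hJ := J_le h1 hm1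
  set J := 2 * Nat.clog 2 (2 * m) with hJdef
  have hb' : (G.edgeSet.ncard : ℝ) ≤ L * (((4 * (a : ℝ) ^ 2) ^ J * (v : ℝ) ^ (2 * f * J)) *
      (2 : ℝ) ^ m) := by
    have h4 : ((4 * a ^ 2 * v ^ (2 * f)) ^ J : ℕ) = (4 * a ^ 2) ^ J * v ^ (2 * f * J) := by
      rw [mul_pow, ← pow_mul]
    rw [h4, Fintype.card_bool] at hb
    exact_mod_cast hb
  refine pieces (β := β) (by positivity) hc (Nat.cast_nonneg L) hE hb' ?_
  -- the estimate
  have e1 : (4 * (a : ℝ) ^ 2) ^ J ≤ Real.exp (8 * Real.log (4 * (a : ℝ) ^ 2) * Real.log m) := by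
    rw [← Real.exp_log (by positivity : (0 : ℝ) < (4 * (a : ℝ) ^ 2) ^ J), Real.log_pow]
    refine Real.exp_le_exp.2 ?_
    calc (J : ℝ) * Real.log (4 * (a : ℝ) ^ 2) ≤ 8 * Real.log m * Real.log (4 * (a : ℝ) ^ 2) :=
          mul_le_mul_of_nonneg_right hJ hlA
      _ = _ := by ring
  have hlm : 0 < Real.log m := by linarith
  have e2 : (v : ℝ) ^ (2 * f * J) ≤ Real.exp (ε / 2 * m * Real.log 2) := by
    calc (v : ℝ) ^ (2 * f * J) ≤ ((2 : ℝ) ^ (ε / (32 * f) * m / Real.log m)) ^ (2 * f * J) := by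
          gcongr
      _ = (2 : ℝ) ^ (ε / (32 * f) * m / Real.log m * ((2 * f * J : ℕ) : ℝ)) := by
          rw [Real.rpow_mul (by norm_num), Real.rpow_natCast]
      _ ≤ (2 : ℝ) ^ (ε / 2 * m) := by
          refine Real.rpow_le_rpow_of_exponent_le (by norm_num) ?_
          push_cast
          calc ε / (32 * f) * m / Real.log m * (2 * f * J)
              = ε / (32 * f) * m * (2 * f) * (J / Real.log m) := by ring
            _ ≤ ε / (32 * f) * m * (2 * f) * 8 := by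
                gcongr
                rw [div_le_iff₀ hlm]
                exact hJ
            _ = ε / 2 * m := by
                field_simp
                ring
      _ = Real.exp (ε / 2 * m * Real.log 2) := by
          rw [Real.rpow_def_of_pos (by norm_num)]
          ring_nf
  have e3 : c * ((2 : ℝ) ^ m) ^ ε = Real.exp (Real.log c + ε * m * Real.log 2) := by
    rw [Real.exp_add, Real.exp_log hc, ← Real.rpow_natCast, ← Real.rpow_mul (by norm_num),
      Real.rpow_def_of_pos (by norm_num)]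
    ring_nf
  rw [e3]
  refine (mul_le_mul e1 e2 (by positivity) (by positivity)).trans ?_
  rw [← Real.exp_add]
  refine Real.exp_le_exp.2 ?_
  have e4 : 8 * Real.log (4 * (a : ℝ) ^ 2) * Real.log m ≤ ε * Real.log 2 / 4 * m := by
    have h5 : 0 < 8 * Real.log (4 * (a : ℝ) ^ 2) + 1 := by positivity
    calc 8 * Real.log (4 * (a : ℝ) ^ 2) * Real.log m
        ≤ (8 * Real.log (4 * (a : ℝ) ^ 2) + 1) * Real.log m := by
          refine mul_le_mul_of_nonneg_right (by linarith) hlm.le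
      _ ≤ (8 * Real.log (4 * (a : ℝ) ^ 2) + 1) *
          (ε * Real.log 2 / (4 * (8 * Real.log (4 * (a : ℝ) ^ 2) + 1)) * m) := by
          gcongr
      _ = ε * Real.log 2 / 4 * m := by
          field_simp
  have e5 : - Real.log c ≤ m * (ε * Real.log 2 / 4) := (div_le_iff₀ (by positivity)).1 h3
  nlinarith

/-- a fixed number of coordinates -/
theorem coords (s t a f : ℕ) (hs1 : 1 ≤ s) (ht1 : 1 ≤ t)
    (hs : s ≤ a + 1) (ht : t ≤ a + 1) (ha : 1 ≤ a) (hsf : s ≤ f + 1) (htf : t ≤ f + 1)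
    (hf : 1 ≤ f) (k : ℕ) (hk : 1 ≤ k) (β c ε : ℝ) (hc : 0 < c) (hε : 0 < ε) :
    ∃ δ : ℝ, 0 < δ ∧ ∃ q0 : ℕ, ∀ (α : Type) [Fintype α], q0 ≤ Fintype.card α →
      ∀ (w L : ℕ) (G : SimpleGraph (Fin k → α)), NoRect s t G → CoveredBy L w G →
      c * ((Fintype.card α : ℝ) ^ k) ^ (1 + β) ≤ G.edgeSet.ncard →
      (w : ℝ) ≤ ((Fintype.card α : ℝ) ^ k) ^ δ →
      ((Fintype.card α : ℝ) ^ k) ^ (β - ε) ≤ L := by
  obtain ⟨J, hJ⟩ : ∃ J : ℕ, J = 2 * Nat.clog 2 (2 * k) := ⟨_, rfl⟩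
  have hJ1 : (1 : ℝ) ≤ J := by
    have : 1 ≤ J := by
      have h2 : 0 < Nat.clog 2 (2 * k) := Nat.clog_pos (by norm_num) (by omega)
      omega
    exact_mod_cast this
  have hr0 : (0 : ℝ) < f := by exact_mod_cast hf
  refine ⟨ε / (4 * f * J), by positivity, ?_⟩
  have t' : ∀ᶠ q : ℕ in atTop, (4 * (a : ℝ) ^ 2) ^ J / c ≤ (q : ℝ) ^ (ε / 2) :=
    ((tendsto_rpow_atTop (by positivity : 0 < ε / 2)).comp
      tendsto_natCast_atTop_atTop).eventually_ge_atTop _
  obtain ⟨q0, hq0⟩ := (t'.and (eventually_ge_atTop 1)).exists_forall_of_atTop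
  refine ⟨q0, fun α _ hα w L G hG hcov hE hw => ?_⟩
  obtain ⟨h1, h2⟩ := hq0 _ hα
  set q := Fintype.card α with hq
  have hq1 : (1 : ℝ) ≤ q := by exact_mod_cast h2
  set n : ℝ := (q : ℝ) ^ k with hn
  have hn1 : 1 ≤ n := one_le_pow₀ hq1
  have hqn : (q : ℝ) ≤ n := by
    calc (q : ℝ) = (q : ℝ) ^ 1 := (pow_one _).symm
      _ ≤ n := pow_le_pow_right₀ hq1 hk
  obtain ⟨v, hv⟩ : ∃ v : ℕ, v = max w 1 := ⟨_, rfl⟩
  have hv1 : 1 ≤ v := by
    rw [hv]
    exact le_max_right _ _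
  have hcov' : CoveredBy L v G := hcov.mono (by rw [hv]; exact le_max_left _ _)
  have hvle : (v : ℝ) ≤ n ^ (ε / (4 * f * J)) := by
    rw [hv, Nat.cast_max]
    refine max_le hw ?_
    rw [Nat.cast_one]
    exact Real.one_le_rpow hn1 (by positivity)
  have hb := bound (J := J) hs1 ht1 hs ht ha hsf htf hf hv1 G hG hcov' (by rw [hJ]; exact J_ok k)
  have hb' : (G.edgeSet.ncard : ℝ) ≤ L * (((4 * (a : ℝ) ^ 2) ^ J * (v : ℝ) ^ (2 * f * J)) *
      n) := by
    have h4 : ((4 * a ^ 2 * v ^ (2 * f)) ^ J : ℕ) = (4 * a ^ 2) ^ J * v ^ (2 * f * J) := by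
      rw [mul_pow, ← pow_mul]
    rw [h4, ← hq] at hb
    rw [hn]
    exact_mod_cast hb
  refine pieces (β := β) (by positivity) hc (Nat.cast_nonneg L) hE hb' ?_
  have e1 : (4 * (a : ℝ) ^ 2) ^ J ≤ c * n ^ (ε / 2) := by
    rw [div_le_iff₀ hc] at h1
    refine h1.trans ?_
    rw [mul_comm]
    gcongr
  have e2 : (v : ℝ) ^ (2 * f * J) ≤ n ^ (ε / 2) := by
    calc (v : ℝ) ^ (2 * f * J) ≤ (n ^ (ε / (4 * f * J))) ^ (2 * f * J) := by
          gcongr
      _ = n ^ (ε / (4 * f * J) * ((2 * f * J : ℕ) : ℝ)) := by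
          rw [Real.rpow_mul (by positivity), Real.rpow_natCast]
      _ = n ^ (ε / 2) := by
          congr 1
          push_cast
          field_simp
          ring
  calc (4 * (a : ℝ) ^ 2) ^ J * (v : ℝ) ^ (2 * f * J) ≤ (c * n ^ (ε / 2)) * n ^ (ε / 2) := by
        gcongr
    _ = c * n ^ ε := by
        rw [mul_assoc, ← Real.rpow_add (by positivity)]
        congr 2
        ring

end Run7.h694.TN
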