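import Pool.Agent.Run7.h694.TN.Gen

/-!
# Graphs of girth larger than four and graphs without `K_{s,t}` (helper694)
-/

set_option autoImplicit false

namespace Run7.h694.TN

open Finset

/-- two vertices and three vertices of a graph of girth larger than four -/
lemma noRect_of_girth {V : Type} {G : SimpleGraph V} (hg : 4 < G.egirth) : NoRect 2 3 G := by
  classical
  intro R T hR hT
  by_contra hno
  push Not at hno
  obtain ⟨x, hx, x', hx', hxx⟩ := one_lt_card.1 (by omega : 1 < R.card)
  by_cases hin : x ∈ T ∧ x' ∈ T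
  · obtain ⟨y, hy⟩ : (T \ {x, x'}).Nonempty := by
      rw [← card_pos]
      have h1 := le_card_sdiff ({x, x'} : Finset V) T
      have h2 : ({x, x'} : Finset V).card ≤ 2 := card_le_two
      omega
    rw [mem_sdiff, mem_insert, mem_singleton, not_or] at hy
    obtain ⟨hyT, hyx, hyx'⟩ := hy
    have a1 : G.Adj x x' := hno x hx x' hin.2 hxx
    have a2 : G.Adj x' y := hno x' hx' y hyT (fun h => hyx' h.symm)
    have a3 : G.Adj y x := (hno x hx y hyT (fun h => hyx h.symm)).symm
    let p : G.Walk x x := .cons a1 (.cons a2 (.cons a3 .nil))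
    have hp : p.IsCycle := by
      simp only [p]
      rw [SimpleGraph.Walk.cons_isCycle_iff]
      constructor
      · simp only [SimpleGraph.Walk.cons_isPath_iff, SimpleGraph.Walk.IsPath.nil,
          SimpleGraph.Walk.support_cons, SimpleGraph.Walk.support_nil, List.mem_cons,
          List.not_mem_nil, or_false, not_or, true_and, not_false_eq_true]
        refine ⟨?_, ?_, ?_⟩
        all_goals tauto
      · simp only [SimpleGraph.Walk.edges_cons, SimpleGraph.Walk.edges_nil, List.mem_cons,
          List.not_mem_nil, or_false, Sym2.eq_iff]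
        tauto
    have h4 : G.egirth ≤ p.length := SimpleGraph.egirth_le_length hp
    have h5 : p.length = 3 := rfl
    rw [h5] at h4
    exact absurd (lt_of_lt_of_le hg h4) (by norm_num)
  · have hcard : 1 < (T \ {x, x'}).card := by
      have h1 : (T ∩ {x, x'}).card ≤ 1 := by
        rw [card_le_one]
        intro a ha b hb
        rw [mem_inter, mem_insert, mem_singleton] at ha hb
        obtain ⟨ha1, ha2⟩ := ha
        obtain ⟨hb1, hb2⟩ := hb
        rcases ha2 with rfl | rfl <;> rcases hb2 with rfl | rfl
        · rfl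
        · exact absurd ⟨ha1, hb1⟩ hin
        · exact absurd ⟨hb1, ha1⟩ hin
        · rfl
      have h2 := card_sdiff_add_card_inter T ({x, x'} : Finset V)
      omega
    obtain ⟨y, hy, y', hy', hyy⟩ := one_lt_card.1 hcard
    rw [mem_sdiff, mem_insert, mem_singleton, not_or] at hy hy'
    obtain ⟨hyT, hyx, hyx'⟩ := hy
    obtain ⟨hyT', hyx2, hyx2'⟩ := hy'
    have a1 : G.Adj x y := hno x hx y hyT (fun h => hyx h.symm)
    have a2 : G.Adj y x' := (hno x' hx' y hyT (fun h => hyx' h.symm)).symm
    have a3 : G.Adj x' y' := hno x' hx' y' hyT' (fun h => hyx2' h.symm)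
    have a4 : G.Adj y' x := (hno x hx y' hyT' (fun h => hyx2 h.symm)).symm
    let p : G.Walk x x := .cons a1 (.cons a2 (.cons a3 (.cons a4 .nil)))
    have hp : p.IsCycle := by
      simp only [p]
      rw [SimpleGraph.Walk.cons_isCycle_iff]
      constructor
      · simp only [SimpleGraph.Walk.cons_isPath_iff, SimpleGraph.Walk.IsPath.nil,
          SimpleGraph.Walk.support_cons, SimpleGraph.Walk.support_nil, List.mem_cons,
          List.not_mem_nil, or_false, not_or, true_and, not_false_eq_true]
        refine ⟨⟨?_, ?_⟩, ?_⟩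
        all_goals tauto
      · simp only [SimpleGraph.Walk.edges_cons, SimpleGraph.Walk.edges_nil, List.mem_cons,
          List.not_mem_nil, or_false, Sym2.eq_iff]
        tauto
    have h4 : G.egirth ≤ p.length := SimpleGraph.egirth_le_length hp
    have h5 : p.length = 4 := rfl
    rw [h5] at h4
    exact absurd (lt_of_lt_of_le hg h4) (lt_irrefl _)

/-- graphs without `K_{s,t}` -/
lemma noRect_of_free {V : Type} {s t : ℕ} {G : SimpleGraph V}
    (hG : (completeBipartiteGraph (Fin s) (Fin t)).Free G) : NoRect s (s + t) G := by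
  classical
  intro R T hR hT
  by_contra hno
  push Not at hno
  obtain ⟨R', hR1, hR2⟩ := exists_subset_card_eq hR
  have h1 : t ≤ (T \ R').card := by
    have := le_card_sdiff R' T
    omega
  obtain ⟨T', hT1, hT2⟩ := exists_subset_card_eq h1
  refine hG ⟨⟨⟨Sum.elim (fun i => (R'.equivFinOfCardEq hR2).symm i)
    (fun j => (T'.equivFinOfCardEq hT2).symm j), ?_⟩, ?_⟩⟩
  · have key : ∀ i j, G.Adj ((R'.equivFinOfCardEq hR2).symm i : V)
        ((T'.equivFinOfCardEq hT2).symm j : V) := by
      intro i j
      have hi := ((R'.equivFinOfCardEq hR2).symm i).2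
      have hj := ((T'.equivFinOfCardEq hT2).symm j).2
      have hj' := mem_sdiff.1 (hT1 hj)
      exact hno _ (hR1 hi) _ hj'.1 (fun e => hj'.2 (e ▸ hi))
    intro x y hxy
    rcases x with i | i <;> rcases y with j | j
    · simp at hxy
    · exact key i j
    · exact (key j i).symm
    · simp at hxy
  · intro x y hxy
    rcases x with i | i <;> rcases y with j | j
    · simp only [RelHom.coeFn_mk, Sum.elim_inl] at hxy
      rw [(R'.equivFinOfCardEq hR2).symm.injective (Subtype.ext hxy)]
    · exfalso
      have hi := ((R'.equivFinOfCardEq hR2).symm i).2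
      have hj := ((T'.equivFinOfCardEq hT2).symm j).2
      simp only [RelHom.coeFn_mk, Sum.elim_inl, Sum.elim_inr] at hxy
      rw [hxy] at hi
      exact (mem_sdiff.1 (hT1 hj)).2 hi
    · exfalso
      have hi := ((R'.equivFinOfCardEq hR2).symm j).2
      have hj := ((T'.equivFinOfCardEq hT2).symm i).2
      simp only [RelHom.coeFn_mk, Sum.elim_inl, Sum.elim_inr] at hxy
      rw [← hxy] at hi
      exact (mem_sdiff.1 (hT1 hj)).2 hi
    · simp only [RelHom.coeFn_mk, Sum.elim_inr] at hxy
      rw [(T'.equivFinOfCardEq hT2).symm.injective (Subtype.ext hxy)]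

end Run7.h694.TN
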